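import Pool.Agent.Helper63.Sey3.Goals

/-!
# Packet EX (project SEY3): exchangeability of the colours
-/

set_option autoImplicit false

namespace Pool.Agent.Helper13.Sey3

open Pool.Agent.Helper41.Girth4 (Pr Pr_equiv Pr_congr)
open Pool.Agent.Helper63.Sey3
open Pool.Agent.Helper8.Sey (Sys.pick)

theorem pick_act {q : ℕ} [NeZero q] (s π : Equiv.Perm (Fin q)) (X Y : Fin q → Prop)
    (h : ∀ a, Y (s a) ↔ X a) : Sys.pick (s * π) Y = s (Sys.pick π X) := by
  classical
  have h1 : (Finset.univ.filter fun t : Fin q => ¬ Y ((s * π) t)) =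
      Finset.univ.filter fun t : Fin q => ¬ X (π t) := by
    ext t
    simp only [Finset.mem_filter, Finset.mem_univ, true_and, Equiv.Perm.mul_apply, h]
  unfold Sys.pick
  by_cases h2 : (Finset.univ.filter fun t : Fin q => ¬ X (π t)).Nonempty
  · have h3 : (Finset.univ.filter fun t : Fin q => ¬ Y ((s * π) t)).Nonempty := by
      rw [h1]; exact h2
    rw [dif_pos h3, dif_pos h2, Equiv.Perm.mul_apply]
    congr 2
    congr 1
  · have h3 : ¬ (Finset.univ.filter fun t : Fin q => ¬ Y ((s * π) t)).Nonempty := by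
      rw [h1]; exact h2
    rw [dif_neg h3, dif_neg h2, Equiv.Perm.mul_apply]

variable {V : Type} (P : Sy V)

/-- permute the colours of a part in the labels -/
def act (l : ℕ) (s : Equiv.Perm (Fin P.q)) (ω : P.Om) : P.Om := fun w =>
  if P.part w = l then (((ω w).1.1, s (ω w).1.2), ((ω w).2.1.1, s * (ω w).2.1.2), (ω w).2.2)
  else ω w

/-- permute the colours of a part -/
def tr (l : ℕ) (s : Equiv.Perm (Fin P.q)) (c : V → Option (Fin P.q)) : V → Option (Fin P.q) :=
  fun w => if P.part w = l then (c w).map s else c w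

theorem act_act (l : ℕ) (s t : Equiv.Perm (Fin P.q)) (ω : P.Om) (h : t * s = 1) :
    act P l t (act P l s ω) = ω := by
  funext w
  unfold act
  by_cases hw : P.part w = l
  · simp only [hw, if_true]
    rw [← mul_assoc, h, one_mul, ← Equiv.Perm.mul_apply, h, Equiv.Perm.one_apply]
  · simp only [hw, if_false]

/-- the bijection -/
def actE (l : ℕ) (s : Equiv.Perm (Fin P.q)) : P.Om ≃ P.Om where
  toFun := act P l s
  invFun := act P l s⁻¹
  left_inv ω := act_act P l s s⁻¹ ω (inv_mul_cancel s)
  right_inv ω := act_act P l s⁻¹ s ω (mul_inv_cancel s)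

variable {P} {l : ℕ} {s : Equiv.Perm (Fin P.q)}

theorem act_in (ω : P.Om) {w : V} (h : P.part w = l) : act P l s ω w =
    (((ω w).1.1, s (ω w).1.2), ((ω w).2.1.1, s * (ω w).2.1.2), (ω w).2.2) := by
  unfold act
  rw [if_pos h]

theorem act_out (ω : P.Om) {w : V} (h : P.part w ≠ l) : act P l s ω w = ω w := by
  unfold act
  rw [if_neg h]

theorem tr_in (c : V → Option (Fin P.q)) {w : V} (h : P.part w = l) :
    tr P l s c w = (c w).map s := by
  unfold tr
  rw [if_pos h]

theorem tr_out (c : V → Option (Fin P.q)) {w : V} (h : P.part w ≠ l) :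
    tr P l s c w = c w := by
  unfold tr
  rw [if_neg h]

theorem act_snd (ω : P.Om) (w : V) : (act P l s ω w).2.2 = (ω w).2.2 := by
  unfold act
  split <;> rfl

theorem al_act (ω : P.Om) (w : V) : P.al (act P l s ω w) ↔ P.al (ω w) := by
  unfold act Sy.al
  split <;> rfl

theorem rd_act (ω : P.Om) (w : V) : P.rd (act P l s ω w) = P.rd (ω w) := by
  unfold act Sy.rd
  split <;> rfl

theorem co_in (ω : P.Om) {w : V} (h : P.part w = l) :
    P.co (act P l s ω w) = s (P.co (ω w)) := by
  rw [act_in ω h]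
  rfl

theorem pm_in (ω : P.Om) {w : V} (h : P.part w = l) :
    P.pm (act P l s ω w) = s * P.pm (ω w) := by
  rw [act_in ω h]
  rfl

theorem tr_none (c : V → Option (Fin P.q)) (w : V) : tr P l s c w = none ↔ c w = none := by
  by_cases h : P.part w = l
  · rw [tr_in c h, Option.map_eq_none_iff]
  · rw [tr_out c h]

theorem used_in (c : V → Option (Fin P.q)) {v : V} (h : P.part v = l) (a : Fin P.q) :
    P.used (tr P l s c) v (s a) ↔ P.used c v a := by
  unfold Sy.used
  refine exists_congr fun u => and_congr_right fun hu => ?_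
  rw [tr_in c (hu.2.trans h), Option.map_eq_some_iff]
  constructor
  · rintro ⟨x, h1, h2⟩
    rw [h1, s.injective h2]
  · intro h1
    exact ⟨a, h1, rfl⟩

theorem used_out (c : V → Option (Fin P.q)) {v : V} (h : P.part v ≠ l) :
    P.used (tr P l s c) v = P.used c v := by
  funext a
  apply propext
  unfold Sy.used
  refine exists_congr fun u => and_congr_right fun hu => ?_
  rw [tr_out c (by rw [hu.2]; exact h)]

theorem pk_in (ω : P.Om) (c : V → Option (Fin P.q)) {v : V} (h : P.part v = l) :
    P.pk (act P l s ω) (tr P l s c) v = s (P.pk ω c v) := by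
  unfold Sy.pk
  rw [pm_in ω h]
  exact pick_act _ _ _ _ fun a => used_in c h a

theorem pk_out (ω : P.Om) (c : V → Option (Fin P.q)) {v : V} (h : P.part v ≠ l) :
    P.pk (act P l s ω) (tr P l s c) v = P.pk ω c v := by
  unfold Sy.pk
  rw [act_out ω h, used_out c h]

theorem c0_act (ω : P.Om) : P.c0 (act P l s ω) = tr P l s (P.c0 ω) := by
  classical
  funext v
  by_cases h : P.part v = l
  · rw [tr_in _ h]
    unfold Sy.c0
    have h1 : (P.al (act P l s ω v) ∧ ∀ y, P.Own v y → ¬ (P.al (act P l s ω y) ∧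
        P.co (act P l s ω y) = P.co (act P l s ω v))) ↔
        (P.al (ω v) ∧ ∀ y, P.Own v y → ¬ (P.al (ω y) ∧ P.co (ω y) = P.co (ω v))) := by
      rw [al_act]
      refine and_congr_right fun _ => forall_congr' fun y => forall_congr' fun hy => ?_
      rw [al_act, co_in ω h, co_in ω (hy.2.trans h), s.injective.eq_iff]
    rw [co_in ω h] at h1 ⊢
    by_cases h2 : P.al (ω v) ∧ ∀ y, P.Own v y → ¬ (P.al (ω y) ∧ P.co (ω y) = P.co (ω v))
    · rw [if_pos (h1.2 h2), if_pos h2]
      rfl
    · rw [if_neg (fun h3 => h2 (h1.1 h3)), if_neg h2]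
      rfl
  · rw [tr_out _ h]
    unfold Sy.c0
    have h1 : (P.al (act P l s ω v) ∧ ∀ y, P.Own v y → ¬ (P.al (act P l s ω y) ∧
        P.co (act P l s ω y) = P.co (act P l s ω v))) ↔
        (P.al (ω v) ∧ ∀ y, P.Own v y → ¬ (P.al (ω y) ∧ P.co (ω y) = P.co (ω v))) := by
      rw [al_act]
      refine and_congr_right fun _ => forall_congr' fun y => forall_congr' fun hy => ?_
      rw [act_out ω h, act_out ω (by rw [hy.2]; exact h)]
    rw [act_out ω h] at h1 ⊢
    by_cases h2 : P.al (ω v) ∧ ∀ y, P.Own v y → ¬ (P.al (ω y) ∧ P.co (ω y) = P.co (ω v))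
    · rw [if_pos (h1.2 h2), if_pos h2]
    · rw [if_neg (fun h3 => h2 (h1.1 h3)), if_neg h2]

theorem stp_act (ω : P.Om) (i : ℕ) (c : V → Option (Fin P.q)) :
    P.stp (act P l s ω) i (tr P l s c) = tr P l s (P.stp ω i c) := by
  classical
  funext v
  by_cases h : P.part v = l
  · rw [tr_in _ h]
    unfold Sy.stp
    by_cases h0 : c v = none
    · have e1 : ¬ (tr P l s c v ≠ none) := not_not.2 ((tr_none c v).2 h0)
      have e2 : ¬ (c v ≠ none) := not_not.2 h0
      rw [if_neg e1, if_neg e2]
      have h1 : (P.rd (act P l s ω v) = i ∧ ¬ P.used (tr P l s c) v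
          (P.pk (act P l s ω) (tr P l s c) v) ∧ ∀ y, P.Own v y → P.idx y < P.idx v →
          tr P l s c y = none → P.rd (act P l s ω y) = i →
            P.pk (act P l s ω) (tr P l s c) y ≠ P.pk (act P l s ω) (tr P l s c) v) ↔
          (P.rd (ω v) = i ∧ ¬ P.used c v (P.pk ω c v) ∧
            ∀ y, P.Own v y → P.idx y < P.idx v → c y = none → P.rd (ω y) = i →
              P.pk ω c y ≠ P.pk ω c v) := by
        rw [rd_act, pk_in ω c h, used_in c h]
        refine and_congr_right fun _ => and_congr_right fun _ => forall_congr' fun y =>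
          forall_congr' fun hy => forall_congr' fun _ => ?_
        rw [tr_none, rd_act, pk_in ω c (hy.2.trans h), Ne, s.injective.eq_iff]
      rw [pk_in ω c h] at h1 ⊢
      by_cases h2 : P.rd (ω v) = i ∧ ¬ P.used c v (P.pk ω c v) ∧
            ∀ y, P.Own v y → P.idx y < P.idx v → c y = none → P.rd (ω y) = i →
              P.pk ω c y ≠ P.pk ω c v
      · rw [if_pos (h1.2 h2), if_pos h2]
        rfl
      · rw [if_neg (fun h3 => h2 (h1.1 h3)), if_neg h2]
        rfl
    · have e1 : tr P l s c v ≠ none := fun h1 => h0 ((tr_none c v).1 h1)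
      rw [if_pos e1, if_pos h0, tr_in c h]
  · rw [tr_out _ h]
    unfold Sy.stp
    by_cases h0 : c v = none
    · have e1 : ¬ (tr P l s c v ≠ none) := not_not.2 ((tr_none c v).2 h0)
      have e2 : ¬ (c v ≠ none) := not_not.2 h0
      rw [if_neg e1, if_neg e2]
      have h1 : (P.rd (act P l s ω v) = i ∧ ¬ P.used (tr P l s c) v
          (P.pk (act P l s ω) (tr P l s c) v) ∧ ∀ y, P.Own v y → P.idx y < P.idx v →
          tr P l s c y = none → P.rd (act P l s ω y) = i →
            P.pk (act P l s ω) (tr P l s c) y ≠ P.pk (act P l s ω) (tr P l s c) v) ↔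
          (P.rd (ω v) = i ∧ ¬ P.used c v (P.pk ω c v) ∧
            ∀ y, P.Own v y → P.idx y < P.idx v → c y = none → P.rd (ω y) = i →
              P.pk ω c y ≠ P.pk ω c v) := by
        rw [rd_act, pk_out ω c h, used_out c h]
        refine and_congr_right fun _ => and_congr_right fun _ => forall_congr' fun y =>
          forall_congr' fun hy => forall_congr' fun _ => ?_
        rw [tr_none, rd_act, pk_out ω c (by rw [hy.2]; exact h)]
      rw [pk_out ω c h] at h1 ⊢
      by_cases h2 : P.rd (ω v) = i ∧ ¬ P.used c v (P.pk ω c v) ∧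
            ∀ y, P.Own v y → P.idx y < P.idx v → c y = none → P.rd (ω y) = i →
              P.pk ω c y ≠ P.pk ω c v
      · rw [if_pos (h1.2 h2), if_pos h2]
      · rw [if_neg (fun h3 => h2 (h1.1 h3)), if_neg h2]
    · have e1 : tr P l s c v ≠ none := fun h1 => h0 ((tr_none c v).1 h1)
      rw [if_pos e1, if_pos h0, tr_out c h]

theorem st_act (ω : P.Om) (i : ℕ) : P.st (act P l s ω) i = tr P l s (P.st ω i) := by
  induction i with
  | zero => exact c0_act ω
  | succ i ih => rw [P.st_succ, P.st_succ, ih, stp_act]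

theorem col_act (ω : P.Om) : P.col (act P l s ω) = tr P l s (P.col ω) := st_act ω P.Z

/-- packet EX -/
theorem goalEX : GoalEX := by
  classical
  intro V _ P E W hE v b b' hb hb'
  have hagree : ∀ ω : P.Om, P.Agree W ω (act P (P.part v) (Equiv.swap b b') ω) := by
    intro ω w
    refine ⟨?_, (act_snd ω w).symm⟩
    intro g hg
    unfold Sy.isC
    refine exists_congr fun a => ?_
    rw [col_act]
    by_cases h : P.part w = P.part v
    · rw [tr_in _ h, h]
      have key : ((a : ℕ) < P.qm ∧ P.cl (P.part v) a = g) → Equiv.swap b b' a = a := by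
        intro h1
        refine Equiv.swap_apply_of_ne_of_ne ?_ ?_
        · rintro rfl
          exact hb g hg h1
        · rintro rfl
          exact hb' g hg h1
      constructor
      · rintro ⟨h1, h2⟩
        rw [h1]
        refine ⟨?_, h2⟩
        show some (Equiv.swap b b' a) = some a
        rw [key h2]
      · rintro ⟨h1, h2⟩
        refine ⟨?_, h2⟩
        rw [Option.map_eq_some_iff] at h1
        obtain ⟨x, h3, h4⟩ := h1
        have h5 : x = a := by
          apply (Equiv.swap b b').injective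
          rw [h4, key h2]
        rw [h3, h5]
    · rw [tr_out _ h]
  rw [← Pr_equiv (actE P (P.part v) (Equiv.swap b b'))
    (fun ω : P.Om => E ω ∧ P.col ω v = some b')]
  apply Pr_congr
  intro ω
  show _ ↔ (E (act P (P.part v) (Equiv.swap b b') ω) ∧
    P.col (act P (P.part v) (Equiv.swap b b') ω) v = some b')
  have h1 := hagree ω
  have h2 : P.Agree W (act P (P.part v) (Equiv.swap b b') ω) ω := by
    intro w
    exact ⟨fun g hg => ((h1 w).1 g hg).symm, (h1 w).2.symm⟩
  have h3 : E ω ↔ E (act P (P.part v) (Equiv.swap b b') ω) := ⟨hE _ _ h1, hE _ _ h2⟩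
  have h4 : P.col ω v = some b ↔
      P.col (act P (P.part v) (Equiv.swap b b') ω) v = some b' := by
    rw [col_act, tr_in _ rfl, Option.map_eq_some_iff]
    constructor
    · intro h
      exact ⟨b, h, Equiv.swap_apply_left b b'⟩
    · rintro ⟨x, h5, h6⟩
      rw [Equiv.swap_apply_eq_iff, Equiv.swap_apply_right] at h6
      rw [h5, h6]
  rw [← h3, ← h4]

end Pool.Agent.Helper13.Sey3
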